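import Pool.Agent.H.MP_711652_nt.G3.OneR
import Pool.Agent.H.MP_711652_nt.G2.StmtR
import Pool.Agent.H.MP_711652_nt.G2.CoreD
import Pool.Agent.H.MP_711652_nt.G2.NumH

/-!
# GAP3 (ii), OneRF: one scale `H = exp (log X / ψ)` with the factor `Rk`
-/

set_option autoImplicit false

namespace Pool.Agent.H.MP_711652_nt.G3

open Filter

theorem oneScaleR_of (hC : G2.CoreD) (hF : G2.DFacts) : G2.OneScaleR := by
  have hR : RSize G2.Rk := by
    filter_upwards [eventually_ge_atTop (Real.exp (Real.exp (Real.exp 1)))] with x hx ψ hψ _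
    exact ⟨zero_le_one.trans (G2.one_le_Rk x ψ), G2.Rk_le hx hψ⟩
  exact oneR hR G2.t2a_gen hC hF

/-- **One scale `H = exp (log X / ψ)`, `1 ≤ ψ ≤ √(log X)`.** -/
theorem oneScaleR : G2.OneScaleR := oneScaleR_of G2.coreD G2.dFacts

end Pool.Agent.H.MP_711652_nt.G3
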