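import Pool.Agent.H.MP_711652_nt.G2.AStar
import Pool.Agent.H.MP_711652_nt.G2.CoreDS
import Pool.Agent.H.MP_711652_nt.G3.OneRF

/-!
# GAP3: Theorem A** without hypotheses
-/

set_option autoImplicit false

namespace Pool.Agent.H.MP_711652_nt.G3

open Pool.Agent.H.MP_711652_nt.G2

/-- Theorem A**. -/
theorem aStar : G2.AStar :=
  astar_of (oneScale_of_coreS (coreS_of_coreD coreD dFacts)) oneScaleR

end Pool.Agent.H.MP_711652_nt.G3
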