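import Mathlib

/-!
# GAP3 (ii), OneE: numerical facts for large `L = log X`
-/

set_option autoImplicit false

namespace Pool.Agent.H.MP_711652_nt.G3

open Filter

theorem one_evA (a b : ℝ) :
    ∀ᶠ L : ℝ in atTop, a + 2 * L ^ (1 / 20 : ℝ) + b * Real.log L ≤ L ^ (2 / 5 : ℝ) := by
  have h1 : ∀ᶠ L : ℝ in atTop, |a| ≤ 1 / 3 * L ^ (2 / 5 : ℝ) := by
    have := (tendsto_rpow_atTop (show (0 : ℝ) < 2 / 5 by norm_num)).eventually_ge_atTop (3 * |a|)
    filter_upwards [this] with L h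
    linarith
  have h2 : ∀ᶠ L : ℝ in atTop, 2 * L ^ (1 / 20 : ℝ) ≤ 1 / 3 * L ^ (2 / 5 : ℝ) := by
    have := (tendsto_rpow_atTop (show (0 : ℝ) < 7 / 20 by norm_num)).eventually_ge_atTop 6
    filter_upwards [this, eventually_gt_atTop 0] with L h h0
    have e : L ^ (2 / 5 : ℝ) = L ^ (1 / 20 : ℝ) * L ^ (7 / 20 : ℝ) := by
      rw [← Real.rpow_add h0]
      norm_num
    rw [e]
    have h3 : 0 < L ^ (1 / 20 : ℝ) := Real.rpow_pos_of_pos h0 _
    nlinarith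
  have h3 : ∀ᶠ L : ℝ in atTop, |b| * Real.log L ≤ 1 / 3 * L ^ (2 / 5 : ℝ) := by
    have := (isLittleO_log_rpow_atTop (show (0 : ℝ) < 2 / 5 by norm_num)).def
      (show (0 : ℝ) < 1 / (3 * (|b| + 1)) by positivity)
    filter_upwards [this, eventually_ge_atTop 1] with L h h0
    rw [Real.norm_of_nonneg (Real.log_nonneg h0), Real.norm_of_nonneg (by positivity)] at h
    have h4 : 0 ≤ L ^ (2 / 5 : ℝ) := by positivity
    have h5 : |b| * Real.log L ≤ |b| * (1 / (3 * (|b| + 1)) * L ^ (2 / 5 : ℝ)) :=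
      mul_le_mul_of_nonneg_left h (abs_nonneg b)
    refine h5.trans ?_
    have h6 : |b| * (1 / (3 * (|b| + 1))) ≤ 1 / 3 := by
      rw [mul_one_div, div_le_div_iff₀ (by positivity) (by norm_num)]
      linarith [abs_nonneg b]
    calc |b| * (1 / (3 * (|b| + 1)) * L ^ (2 / 5 : ℝ)) =
        |b| * (1 / (3 * (|b| + 1))) * L ^ (2 / 5 : ℝ) := by ring
      _ ≤ _ := mul_le_mul_of_nonneg_right h6 h4
  filter_upwards [h1, h2, h3, eventually_ge_atTop 1] with L h1 h2 h3 h4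
  have h5 := le_abs_self a
  have h6 : b * Real.log L ≤ |b| * Real.log L :=
    mul_le_mul_of_nonneg_right (le_abs_self b) (Real.log_nonneg h4)
  linarith

/-- `L ^ (2/5) ≤ δ L ^ (1/2)` for large `L`. -/
theorem one_ev25 (δ : ℝ) (hδ : 0 < δ) :
    ∀ᶠ L : ℝ in atTop, L ^ (2 / 5 : ℝ) ≤ δ * Real.sqrt L := by
  have := (tendsto_rpow_atTop (show (0 : ℝ) < 1 / 10 by norm_num)).eventually_ge_atTop (1 / δ)
  filter_upwards [this, eventually_gt_atTop 0] with L h h0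
  have e : Real.sqrt L = L ^ (2 / 5 : ℝ) * L ^ (1 / 10 : ℝ) := by
    rw [← Real.rpow_add h0, Real.sqrt_eq_rpow]
    norm_num
  rw [e]
  have h3 : 0 < L ^ (2 / 5 : ℝ) := Real.rpow_pos_of_pos h0 _
  rw [div_le_iff₀ hδ] at h
  nlinarith

/-- the number of scales -/
noncomputable def nS (L : ℝ) : ℕ := ⌊Real.logb 2 (L ^ (1 / 20 : ℝ)) / 25⌋₊

theorem nS_pow {L : ℝ} (hL : 1 ≤ L) : (2 : ℝ) ^ nS L ≤ (L ^ (1 / 20 : ℝ)) ^ (1 / 25 : ℝ) := by
  have hL0 : 0 < L := by linarith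
  have h0 : 0 < L ^ (1 / 20 : ℝ) := Real.rpow_pos_of_pos hL0 _
  have h1 : 1 ≤ L ^ (1 / 20 : ℝ) := Real.one_le_rpow hL (by norm_num)
  have h2 : (nS L : ℝ) ≤ Real.logb 2 (L ^ (1 / 20 : ℝ)) / 25 :=
    Nat.floor_le (div_nonneg (Real.logb_nonneg (by norm_num) h1) (by norm_num))
  rw [← Real.rpow_natCast]
  calc (2 : ℝ) ^ (nS L : ℝ) ≤ 2 ^ (Real.logb 2 (L ^ (1 / 20 : ℝ)) / 25) :=
        Real.rpow_le_rpow_of_exponent_le (by norm_num) h2
    _ = (2 ^ Real.logb 2 (L ^ (1 / 20 : ℝ))) ^ (1 / 25 : ℝ) := by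
        rw [← Real.rpow_mul (by norm_num)]
        congr 1
        ring
    _ = _ := by rw [Real.rpow_logb (by norm_num) (by norm_num) h0]

theorem nS_ge {L : ℝ} (hL : 1 ≤ L) : Real.log L / 500 - 1 ≤ nS L := by
  have hL0 : 0 < L := by linarith
  have h1 : Real.logb 2 (L ^ (1 / 20 : ℝ)) / 25 - 1 ≤ nS L := (Nat.sub_one_lt_floor _).le
  refine le_trans ?_ h1
  have h2 : Real.logb 2 (L ^ (1 / 20 : ℝ)) = 1 / 20 * Real.log L / Real.log 2 := by
    rw [Real.logb, Real.log_rpow hL0]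
  rw [h2]
  have h3 : Real.log 2 ≤ 1 := by
    have := Real.log_two_lt_d9
    linarith
  have h4 : 0 < Real.log 2 := Real.log_pos (by norm_num)
  have h5 : 0 ≤ Real.log L := Real.log_nonneg hL
  have h6 : 1 / 20 * Real.log L ≤ 1 / 20 * Real.log L / Real.log 2 := by
    rw [le_div_iff₀ h4]
    exact mul_le_of_le_one_right (by positivity) h3
  linarith

end Pool.Agent.H.MP_711652_nt.G3
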