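import Pool.Agent.H.MP_711652_nt.G3.T2c
import Pool.Agent.H.MP_711652_nt.G3.OneE
import Pool.Agent.H.MP_711652_nt.G2.BigThin
import Pool.Agent.H.MP_711652_nt.G2.StmtD

/-!
# GAP3 (ii), CoreR: the core for the windows `W (1 + Λ j) + a + h`, `h ∈ J`
-/

set_option autoImplicit false

namespace Pool.Agent.H.MP_711652_nt.G3

open Finset Filter Pool.Agent.H.MP_711652_nt.LG Pool.Agent.H.MP_711652_nt.G2

/-- The windows with the indices `Λ j` are disjoint. -/
theorem wdw_disj2 {W a Λ : ℕ} {J : Finset ℕ} (hJ : J ⊆ Icc 1 Λ) (hW : 0 < W) {i j : ℕ}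
    (hij : i ≠ j) : Disjoint (wdw W a J (Λ * i)) (wdw W a J (Λ * j)) := by
  have key : ∀ i j : ℕ, i < j → Disjoint (wdw W a J (Λ * i)) (wdw W a J (Λ * j)) := by
    intro i j h3
    rw [Finset.disjoint_left]
    intro k hk hk'
    rw [mem_wdw] at hk hk'
    obtain ⟨h, hh, rfl⟩ := hk
    obtain ⟨h', hh', he⟩ := hk'
    have h1 := mem_Icc.1 (hJ hh)
    have h2 := mem_Icc.1 (hJ hh')
    have h4 : Λ * i + Λ ≤ Λ * j := by
      rw [← Nat.mul_succ]
      exact Nat.mul_le_mul_left Λ h3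
    have h5 : W * (1 + Λ * i) + W * Λ ≤ W * (1 + Λ * j) := by
      rw [← Nat.mul_add]
      exact Nat.mul_le_mul_left W (by omega)
    have h6 : Λ ≤ W * Λ := Nat.le_mul_of_pos_left Λ hW
    omega
  rcases lt_or_gt_of_ne hij with h | h
  · exact key i j h
  · exact (key j i h).symm

open Classical in
theorem coreR (hD : CoreD) (hF : DFacts) (A' : ℕ) : ∃ c₀ : ℝ, 0 < c₀ ∧ ∃ X₀ : ℕ, ∀ X : ℕ, X₀ ≤ X →
    ∀ (W a Λ : ℕ) (J : Finset ℕ), 0 < W →
    (∀ p : ℕ, p.Prime → p ∣ W → (p : ℝ) ≤ Real.log X) → a ≤ W → J ⊆ Icc 1 Λ →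
    (J.card : ℝ) ≤ c₀ * Real.log X → (Λ : ℝ) ≤ Real.log X ^ 3 →
    (W : ℝ) ≤ Real.exp (3 / 20 * Real.log X) →
      (((range (X / W + 1)).filter fun m => ∀ j < ⌈Real.exp (Real.log X ^ (1 / 20 : ℝ))⌉₊,
        ∃ k ∈ wdw W a J (Λ * j), ∀ p : ℕ, p.Prime → p ∣ W * m + k →
          (X : ℝ) ^ (1 / 10 : ℝ) < p).card : ℝ) ≤
        1 / 10 * Real.log X ^ (-(A' : ℝ)) * ((X / W + 1 : ℕ) : ℝ) := by
  obtain ⟨c₂, hc₂, h₀, X₁, hcore⟩ := hD A' (8 * A' + 25) le_rfl (9 * Real.exp 21) (by positivity)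
  obtain ⟨h₀', X₂, hfacts⟩ := hF A' (8 * A' + 25)
  refine ⟨min 1 (c₂ / 1000), lt_min one_pos (by positivity), ?_⟩
  have hlogX : Tendsto (fun X : ℕ => Real.log X) atTop atTop :=
    Real.tendsto_log_atTop.comp tendsto_natCast_atTop_atTop
  have e1 : ∀ᶠ L : ℝ in atTop, (A' : ℝ) * Real.log L ≤ L ^ (1 / 50 : ℝ) := by
    have := (isLittleO_log_rpow_atTop (show (0 : ℝ) < 1 / 50 by norm_num)).def
      (show (0 : ℝ) < 1 / ((A' : ℝ) + 1) by positivity)
    filter_upwards [this, eventually_ge_atTop 1] with L h h0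
    rw [Real.norm_of_nonneg (Real.log_nonneg h0), Real.norm_of_nonneg (by positivity)] at h
    have h4 : 0 ≤ L ^ (1 / 50 : ℝ) := by positivity
    calc (A' : ℝ) * Real.log L ≤ A' * (1 / ((A' : ℝ) + 1) * L ^ (1 / 50 : ℝ)) :=
          mul_le_mul_of_nonneg_left h (Nat.cast_nonneg _)
      _ = (A' : ℝ) / (A' + 1) * L ^ (1 / 50 : ℝ) := by ring
      _ ≤ 1 * L ^ (1 / 50 : ℝ) := by
          refine mul_le_mul_of_nonneg_right ?_ h4
          rw [div_le_one (by positivity)]
          linarith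
      _ = _ := one_mul _
  have e2 : ∀ᶠ L : ℝ in atTop, max h₀ h₀' ≤ L ^ (1 / 20 : ℝ) :=
    (tendsto_rpow_atTop (show (0 : ℝ) < 1 / 20 by norm_num)).eventually_ge_atTop _
  have e3 : ∀ᶠ L : ℝ in atTop, 1000 * (9 * Real.exp 21 + 12) ≤ Real.log L :=
    Real.tendsto_log_atTop.eventually_ge_atTop _
  have eall := hlogX.eventually (((one_evA 20 3).and (one_ev25 (1 / 10) (by norm_num))).and
    ((e1.and e2).and (e3.and (eventually_ge_atTop (10 : ℝ)))))
  obtain ⟨X₃, hX₃⟩ := eventually_atTop.1 eall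
  refine ⟨X₁ + X₂ + X₃ + 3, fun X hX W a Λ J hW0 hWp ha hJ hJc hΛ hWX => ?_⟩
  obtain ⟨⟨g1, g2⟩, ⟨g3, g4⟩, g5, g6⟩ := hX₃ X (by omega)
  set L := Real.log X with hL
  have hL1 : 1 ≤ L := by linarith
  have hL0 : 0 < L := by linarith
  have hX0 : (0 : ℝ) < X := by exact_mod_cast (by omega : 0 < X)
  have hXL : Real.exp L = X := Real.exp_log hX0
  have hlL : 0 ≤ Real.log L := Real.log_nonneg hL1
  -- powers of `L`
  have p0 : 0 < L ^ (1 / 20 : ℝ) := Real.rpow_pos_of_pos hL0 _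
  have p1 : L ^ (2 / 5 : ℝ) ≤ L ^ (9 / 10 : ℝ) :=
    Real.rpow_le_rpow_of_exponent_le hL1 (by norm_num)
  have p2 : L ^ (2 / 5 : ℝ) ≤ 1 / 10 * L := by
    refine g2.trans (mul_le_mul_of_nonneg_left ?_ (by norm_num))
    rw [Real.sqrt_le_left hL0.le]
    nlinarith
  have p3 : Real.exp (3 * Real.log L) = L ^ 3 := by
    have : (3 : ℝ) * Real.log L = Real.log (L ^ 3) := by
      rw [Real.log_pow]
      norm_num
    rw [this, Real.exp_log (by positivity)]
  -- parameters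
  set n := nS L with hn
  set e : ℝ := A' * Real.log L with he
  set h : ℝ := L ^ (1 / 20 : ℝ) with hh
  have hn1 : Real.log L / 500 - 1 ≤ n := nS_ge hL1
  have hexp21 : 0 < Real.exp 21 := Real.exp_pos _
  have hn2 : 9 * Real.exp 21 + 10 ≤ n := by linarith
  have hn3 : Real.log L / 1000 ≤ n := by linarith
  have hn10 : 10 ≤ n := by
    have : (10 : ℝ) ≤ n := by linarith
    exact_mod_cast this
  have hAdm : ∀ t : ℝ, t ≤ max h₀ h₀' → Adm A' t X n e h := fun t ht =>
    { n10 := hn10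
      e0 := by positivity
      eL := le_rfl
      eh := by
        refine g3.trans (le_of_eq ?_)
        rw [hh, ← Real.rpow_mul hL0.le]
        norm_num
      nh := nS_pow hL1
      h0 := ht.trans g4
      hL := le_rfl }
  obtain ⟨f1, f2, f3, f4, f5, f6, f7, f8, f9, f10, f11⟩ :=
    hfacts X (by omega) n e h (hAdm _ (le_max_right _ _))
  set z := dz X n e with hz
  set B := dB X n e with hB
  -- the number of windows
  set M := ⌈Real.exp h⌉₊ with hM
  have hM1 : Real.exp h ≤ M := Nat.le_ceil _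
  have hM2 : (M : ℝ) ≤ 2 * Real.exp h := by
    have h1 : (M : ℝ) < Real.exp h + 1 := Nat.ceil_lt_add_one (Real.exp_pos _).le
    have h2 : 1 ≤ Real.exp h := Real.one_le_exp p0.le
    linarith
  have hMpos : 0 < M := by
    have : (0 : ℝ) < M := (Real.exp_pos _).trans_le hM1
    exact_mod_cast this
  -- the size of the positions
  have hk : ∀ j < M, ∀ k ∈ wdw W a J (Λ * j), 0 < k ∧ k ≤ X := by
    intro j hj k hkk
    refine ⟨wdw_pos hW0 hkk, ?_⟩
    have h1 : k ≤ W * (1 + Λ * j) + W + Λ := by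
      rw [mem_wdw] at hkk
      obtain ⟨x, hx, rfl⟩ := hkk
      have := mem_Icc.1 (hJ hx)
      omega
    have h2 : (k : ℝ) ≤ W * (1 + Λ * j) + W + Λ := by exact_mod_cast h1
    have h3 : (j : ℝ) + 1 ≤ M := by exact_mod_cast hj
    have hW1 : (1 : ℝ) ≤ W := by exact_mod_cast hW0
    have hΛ0 : (0 : ℝ) ≤ Λ := Nat.cast_nonneg _
    have hL3 : (1 : ℝ) ≤ L ^ 3 := one_le_pow₀ hL1
    have h4 : (W : ℝ) * (1 + Λ * j) + W + Λ ≤ 2 * W * (L ^ 3 * M) := by
      have a1 : (Λ : ℝ) * j + Λ ≤ L ^ 3 * M := by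
        calc (Λ : ℝ) * j + Λ = Λ * (j + 1) := by ring
          _ ≤ L ^ 3 * M := mul_le_mul hΛ h3 (by positivity) (by positivity)
      have a2 : (Λ : ℝ) ≤ W * Λ := le_mul_of_one_le_left hΛ0 hW1
      have a3 : (W : ℝ) * (Λ * j + Λ) ≤ W * (L ^ 3 * M) :=
        mul_le_mul_of_nonneg_left a1 (by positivity)
      have a4 : (2 : ℝ) ≤ L ^ 3 * M := by
        have b1 : (1 : ℝ) ≤ M := by exact_mod_cast hMpos
        have b2 : (10 : ℝ) ^ 3 ≤ L ^ 3 := pow_le_pow_left₀ (by norm_num) g6 3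
        nlinarith
      have a5 : (W : ℝ) * 2 ≤ W * (L ^ 3 * M) := mul_le_mul_of_nonneg_left a4 (by positivity)
      linarith
    have h5 : 2 * (W : ℝ) * (L ^ 3 * M) ≤ X := by
      have b1 : (L ^ 3 : ℝ) * M ≤ L ^ 3 * (2 * Real.exp h) :=
        mul_le_mul_of_nonneg_left hM2 (by positivity)
      have b2 : 2 * (W : ℝ) * (L ^ 3 * M) ≤
          2 * Real.exp (3 / 20 * L) * (L ^ 3 * (2 * Real.exp h)) := by
        have := mul_le_mul (mul_le_mul_of_nonneg_left hWX (show (0 : ℝ) ≤ 2 by norm_num)) b1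
          (by positivity) (by positivity)
        exact this
      have b3 : (4 : ℝ) ≤ Real.exp 2 := by
        have := Real.add_one_le_exp (1 : ℝ)
        have h4 : Real.exp 2 = Real.exp 1 * Real.exp 1 := by rw [← Real.exp_add]; norm_num
        rw [h4]
        nlinarith
      calc 2 * (W : ℝ) * (L ^ 3 * M) ≤ 2 * Real.exp (3 / 20 * L) * (L ^ 3 * (2 * Real.exp h)) := b2
        _ = 4 * (Real.exp (3 / 20 * L) * Real.exp (3 * Real.log L) * Real.exp h) := by
            rw [p3]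
            ring
        _ ≤ Real.exp 2 * (Real.exp (3 / 20 * L) * Real.exp (3 * Real.log L) * Real.exp h) :=
            mul_le_mul_of_nonneg_right b3 (by positivity)
        _ = Real.exp (2 + (3 / 20 * L + 3 * Real.log L + h)) := by
            rw [← Real.exp_add, ← Real.exp_add, ← Real.exp_add]
        _ ≤ Real.exp L := Real.exp_le_exp.2 (by linarith)
        _ = X := hXL
    exact_mod_cast (h2.trans h4).trans h5
  -- the exceptional primes
  set S := (range M).biUnion (fun j => wdw W a J (Λ * j)) with hS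
  have hSX : ∀ k ∈ S, k ≤ X := by
    intro k hkk
    rw [hS, mem_biUnion] at hkk
    obtain ⟨j, hj, hkk⟩ := hkk
    exact (hk j (mem_range.1 hj) k hkk).2
  have hc₀L : (J.card : ℝ) ≤ L := hJc.trans (by
    have : min 1 (c₂ / 1000) ≤ 1 := min_le_left _ _
    calc min 1 (c₂ / 1000) * L ≤ 1 * L := mul_le_mul_of_nonneg_right this hL0.le
      _ = L := one_mul L)
  have hSc : (S.card : ℝ) ≤ M * L := by
    have h1 : S.card ≤ ∑ j ∈ range M, (wdw W a J (Λ * j)).card := card_biUnion_le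
    have h2 : ∑ j ∈ range M, (wdw W a J (Λ * j)).card ≤ ∑ _j ∈ range M, J.card :=
      sum_le_sum fun j _ => wdw_card _ _ _ _
    rw [sum_const, card_range, smul_eq_mul] at h2
    have h3 : (S.card : ℝ) ≤ M * J.card := by exact_mod_cast h1.trans h2
    exact h3.trans (mul_le_mul_of_nonneg_left hc₀L (Nat.cast_nonneg _))
  have hlz : 1 ≤ Real.log z := by
    have h1 : Real.log (Real.exp (L ^ (9 / 10 : ℝ))) ≤ Real.log z :=
      Real.log_le_log (Real.exp_pos _) f7
    rw [Real.log_exp] at h1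
    exact (Real.one_le_rpow hL1 (by norm_num)).trans h1
  have hExc : 100 * (Exc z B S).card ≤ z := by
    have h1 := exc_card (z := z) (B := B) (by omega) hSX
    have h2 : Real.log X / Real.log z ≤ L := div_le_self hL0.le hlz
    have h3 : ((Exc z B S).card : ℝ) ≤ (M * L) ^ 2 * L := by
      refine h1.trans (mul_le_mul (pow_le_pow_left₀ (Nat.cast_nonneg _) hSc 2) h2 ?_ (by positivity))
      exact div_nonneg hL0.le (by linarith)
    have h4 : (M * L) ^ 2 * L ≤ (2 * Real.exp h * L) ^ 2 * L := by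
      refine mul_le_mul_of_nonneg_right ?_ hL0.le
      exact pow_le_pow_left₀ (by positivity) (mul_le_mul_of_nonneg_right hM2 hL0.le) 2
    have h5 : (400 : ℝ) ≤ Real.exp 20 := by
      have h6 : (2 : ℝ) ≤ Real.exp 1 := by
        have := Real.add_one_le_exp (1 : ℝ)
        linarith
      have h7 : Real.exp 20 = Real.exp 1 ^ 20 := by
        rw [← Real.exp_nat_mul]
        norm_num
      rw [h7]
      calc (400 : ℝ) ≤ 2 ^ 20 := by norm_num
        _ ≤ Real.exp 1 ^ 20 := pow_le_pow_left₀ (by norm_num) h6 20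
    have h6 : (100 : ℝ) * (Exc z B S).card ≤ z := by
      calc (100 : ℝ) * (Exc z B S).card ≤ 100 * ((2 * Real.exp h * L) ^ 2 * L) :=
            mul_le_mul_of_nonneg_left (h3.trans h4) (by norm_num)
        _ = 400 * (Real.exp h * Real.exp h * L ^ 3) := by ring
        _ ≤ Real.exp 20 * (Real.exp h * Real.exp h * Real.exp (3 * Real.log L)) := by
            rw [p3]
            exact mul_le_mul_of_nonneg_right h5 (by positivity)
        _ = Real.exp (20 + (h + h + 3 * Real.log L)) := by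
            rw [← Real.exp_add, ← Real.exp_add, ← Real.exp_add]
        _ ≤ Real.exp (L ^ (9 / 10 : ℝ)) := Real.exp_le_exp.2 (by linarith)
        _ ≤ z := f7
    exact_mod_cast h6
  set P := Pbig z B \ Exc z B S with hP
  have hPs : P ⊆ Pbig z B := sdiff_subset
  have hPc : Pbig z B \ P = Exc z B S := Finset.sdiff_sdiff_eq_self (exc_sub z B S)
  have hsum : ∑ q ∈ Pbig z B \ P, 1 / ((q : ℝ) - 1) ≤ 1 / 100 := by
    rw [hPc]
    exact thin_sum_of_card (exc_sub z B S) hExc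
  have hBig := big_thin (Y := dY X) (K := dK n e) f1 f2 (by linarith) f4 f5 hPs hsum
  have hcc := c_thin_le f1 f2 (by linarith) hPs hsum
  -- the modulus
  have hDL : L ≤ (dD (8 * A' + 25) X : ℝ) := by
    refine le_trans ?_ f9
    have h1 : L ^ 2 ≤ L ^ (8 * A' + 25) := pow_le_pow_right₀ hL1 (by omega)
    nlinarith
  have hDΛ : Λ ≤ dD (8 * A' + 25) X := by
    have h1 : (Λ : ℝ) ≤ dD (8 * A' + 25) X := by
      refine hΛ.trans (le_trans ?_ f9)
      have h1 : L ^ 4 ≤ L ^ (8 * A' + 25) := pow_le_pow_right₀ hL1 (by omega)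
      have h2 : 10 * L ^ 3 ≤ L * L ^ 3 := mul_le_mul_of_nonneg_right g6 (by positivity)
      have h3 : L ^ 4 = L * L ^ 3 := by ring
      have h4 : 0 ≤ L ^ 3 := by positivity
      linarith
    exact_mod_cast h1
  have hWD : ∀ p : ℕ, p.Prime → dD (8 * A' + 25) X < p → ¬ p ∣ W := by
    intro p hp hlt hd
    have h1 := hWp p hp hd
    have h2 : ((dD (8 * A' + 25) X : ℕ) : ℝ) < p := by exact_mod_cast hlt
    linarith
  set wd : Fin M → Finset ℕ := fun j => wdw W a J (Λ * j) with hwd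
  have hmemS : ∀ (j : Fin M) (k : ℕ), k ∈ wd j → k ∈ S := by
    intro j k hkk
    rw [hS, mem_biUnion]
    exact ⟨j, mem_range.2 j.2, hkk⟩
  have hWpos : (0 : ℝ) < W := by exact_mod_cast hW0
  have hNX : (X : ℝ) / W ≤ ((X / W + 1 : ℕ) : ℝ) := by
    rw [div_le_iff₀ hWpos]
    have h1 := (Nat.lt_mul_div_succ X hW0).le
    have h2 : (X : ℝ) ≤ W * ((X / W + 1 : ℕ) : ℝ) := by exact_mod_cast h1
    linarith
  have hN45 : (X : ℝ) ^ (4 / 5 : ℝ) ≤ ((X / W + 1 : ℕ) : ℝ) := by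
    refine le_trans ?_ hNX
    rw [le_div_iff₀ hWpos]
    have h1 : (X : ℝ) ^ (4 / 5 : ℝ) = Real.exp (4 / 5 * L) := by
      rw [Real.rpow_def_of_pos hX0]
      congr 1
      ring
    rw [h1]
    calc Real.exp (4 / 5 * L) * W ≤ Real.exp (4 / 5 * L) * Real.exp (3 / 20 * L) :=
          mul_le_mul_of_nonneg_left hWX (Real.exp_pos _).le
      _ = Real.exp (4 / 5 * L + 3 / 20 * L) := by rw [← Real.exp_add]
      _ ≤ Real.exp L := Real.exp_le_exp.2 (by linarith)
      _ = X := hXL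
  have hfin := hcore X (by omega) n e h (hAdm _ (le_max_left _ _)) P (1 / S1 P B) hBig hcc
    (fun p hp => ⟨Pbig_lt p (hPs hp), Pbig_le p (hPs hp)⟩) W hWD M wd hM1
    (fun i j hij => wdw_disj2 hJ hW0 fun h => hij (Fin.ext h))
    (fun j => by
      have h1 : ((wd j).card : ℝ) ≤ J.card := by exact_mod_cast wdw_card W a J (Λ * j)
      refine h1.trans (hJc.trans ?_)
      have h2 : min 1 (c₂ / 1000) ≤ c₂ / 1000 := min_le_right _ _
      have hll : 0 < Real.log L := by linarith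
      rw [← hL, le_div_iff₀ hll]
      calc min 1 (c₂ / 1000) * L * Real.log L ≤ c₂ / 1000 * L * Real.log L := by
            gcongr
        _ = c₂ * L * (Real.log L / 1000) := by ring
        _ ≤ c₂ * L * n := mul_le_mul_of_nonneg_left hn3 (by positivity)
        _ = c₂ * n * L := by ring)
    (fun j k hkk l hl => (wdw_near hJ hkk hl).trans (Nat.add_le_add_left hDΛ _))
    (fun i j k hkk l _ => by
      have := (hk i i.2 k hkk).2
      omega)
    (fun p hp i j k hkk l hl hne hmod => hne (exc_mod hp (hmemS i k hkk) (hmemS j l hl) hmod))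
    (X / W + 1) hN45 (fun j k hkk => (hk j j.2 k hkk).1)
    (fun m hm j k hkk => by
      have h1 : W * m ≤ X := by
        have h2 : m ≤ X / W := by omega
        exact (Nat.mul_le_mul_left W h2).trans (Nat.mul_div_le X W)
      have h3 := (hk j j.2 k hkk).2
      have h4 : X * 2 ≤ X * X := Nat.mul_le_mul_left X (by omega)
      rw [sq]
      omega)
  have hcard : (((range (X / W + 1)).filter fun m => ∀ j < M,
        ∃ k ∈ wdw W a J (Λ * j), ∀ p : ℕ, p.Prime → p ∣ W * m + k →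
          (X : ℝ) ^ (1 / 10 : ℝ) < p).card : ℝ) ≤
      6 * (Real.exp (-e) / 100) * ((X / W + 1 : ℕ) : ℝ) := by
    refine le_trans ?_ hfin
    refine Nat.cast_le.2 (card_le_card ?_)
    intro m hm
    rw [mem_filter] at hm ⊢
    refine ⟨hm.1, fun j => ?_⟩
    obtain ⟨k, hk1, hk2⟩ := hm.2 j j.2
    refine ⟨k, hk1, ?_, ?_⟩
    · intro p hp _ hpz hd
      have h1 := hk2 p hp hd
      have h2 : (p : ℝ) ≤ B := by exact_mod_cast hpz.trans f3
      linarith
    · intro p hp hd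
      have h1 := hk2 p (Pbig_prime p (hPs hp)) hd
      have h2 : (p : ℝ) ≤ B := by exact_mod_cast Pbig_le p (hPs hp)
      linarith
  refine hcard.trans ?_
  have h1 : Real.exp (-e) = L ^ (-(A' : ℝ)) := by
    rw [Real.rpow_def_of_pos hL0, he]
    congr 1
    ring
  rw [h1]
  have h2 : 0 < L ^ (-(A' : ℝ)) := Real.rpow_pos_of_pos hL0 _
  refine mul_le_mul_of_nonneg_right ?_ (Nat.cast_nonneg _)
  linarith

end Pool.Agent.H.MP_711652_nt.G3
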