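import Pool.Agent.H.MP_711652_nt.G3.CoreR
import Pool.Agent.H.MP_711652_nt.G2.StmtA

/-!
# GAP3 (ii), OneR: one scale `H = exp (log X / ψ)`
-/

set_option autoImplicit false

namespace Pool.Agent.H.MP_711652_nt.G3

open Finset Filter Pool.Agent.H.MP_711652_nt.LG Pool.Agent.H.MP_711652_nt.G2

/-- The Erdős-Rankin stage with the primes up to about `x / (10 ψ)`, gain `R x ψ`. -/
def T2aG (R : ℝ → ℝ → ℝ) : Prop :=
  ∀ c₀ : ℝ, 0 < c₀ → ∃ c : ℝ, 0 < c ∧ ∃ x₀ : ℝ, ∀ x : ℝ, x₀ ≤ x → ∀ ψ : ℝ, 1 ≤ ψ →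
    ψ ≤ Real.sqrt x → ∀ w : ℕ, x ≤ 20 * ψ * w → (w : ℝ) ≤ x → ∃ a < primorial w,
      (((Icc 1 ⌊c * x * Real.log x * R x ψ⌋₊).filter
        (fun h => Nat.Coprime (a + h) (primorial w))).card : ℝ) ≤ c₀ * x

/-- The size of the gain. -/
def RSize (R : ℝ → ℝ → ℝ) : Prop :=
  ∀ᶠ x : ℝ in atTop, ∀ ψ : ℝ, 1 ≤ ψ → ψ ≤ Real.sqrt x → 0 ≤ R x ψ ∧ R x ψ ≤ Real.log x

/-- One scale `H = exp (log X / ψ)`. -/
def OneScaleR (R : ℝ → ℝ → ℝ) : Prop :=
  ∀ A : ℝ, 0 < A → ∃ c : ℝ, 0 < c ∧ ∃ X₀ : ℕ, ∀ X : ℕ, X₀ ≤ X → ∀ ψ : ℝ, 1 ≤ ψ →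
    ψ ≤ Real.sqrt (Real.log X) →
      ({n : ℕ | n < X ∧ ¬ Void n (Real.exp (Real.log X / ψ))
        (c * Real.log X * Real.log (Real.log X) * R (Real.log X) ψ)}.ncard : ℝ) ≤
        Real.log X ^ (-A) * X

theorem primorial_exp (w : ℕ) : ((primorial w : ℕ) : ℝ) ≤ Real.exp (7 / 5 * w) := by
  have h1 : ((primorial w : ℕ) : ℝ) ≤ (4 : ℝ) ^ w := by
    exact_mod_cast primorial_le_four_pow w
  refine h1.trans ?_
  have h2 : (4 : ℝ) ≤ Real.exp (7 / 5) := by
    have h3 : Real.log 4 ≤ 7 / 5 := by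
      have h4 : (4 : ℝ) = 2 ^ 2 := by norm_num
      rw [h4, Real.log_pow]
      have := Real.log_two_lt_d9
      push_cast
      linarith
    exact (Real.log_le_iff_le_exp (by norm_num)).1 h3
  calc (4 : ℝ) ^ w ≤ Real.exp (7 / 5) ^ w := pow_le_pow_left₀ (by norm_num) h2 w
    _ = Real.exp (7 / 5 * w) := by
        rw [← Real.exp_nat_mul]
        congr 1
        ring

/-- Counting the integers by their quotient. -/
theorem count_div {W B : ℕ} (hW : 0 < W) (S E : Finset ℕ)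
    (h : ∀ n ∈ S, n < B ∨ n / W ∈ E) : S.card ≤ B + W * E.card := by
  have h1 : S ⊆ range B ∪ (range W ×ˢ E).image (fun q => W * q.2 + q.1) := by
    intro n hn
    rw [mem_union, mem_range]
    rcases h n hn with h2 | h2
    · exact Or.inl h2
    · refine Or.inr (mem_image.2 ⟨(n % W, n / W), ?_, ?_⟩)
      · rw [mem_product, mem_range]
        exact ⟨Nat.mod_lt _ hW, h2⟩
      · exact Nat.div_add_mod n W
  refine (card_le_card h1).trans ((card_union_le _ _).trans ?_)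
  rw [card_range]
  refine Nat.add_le_add_left (card_image_le.trans ?_) _
  rw [card_product, card_range]

theorem oneR {R : ℝ → ℝ → ℝ} (hR : RSize R) (hT : T2aG R) (hC : CoreD) (hF : DFacts) :
    OneScaleR R := by
  classical
  intro A hA
  obtain ⟨c₀, hc₀, X₁, hcore⟩ := coreR hC hF ⌈A⌉₊
  obtain ⟨c, hc, x₀, hrank⟩ := hT c₀ hc₀
  refine ⟨c, hc, ?_⟩
  have hlogX : Tendsto (fun X : ℕ => Real.log X) atTop atTop :=
    Real.tendsto_log_atTop.comp tendsto_natCast_atTop_atTop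
  have eall := hlogX.eventually (((one_evA 20 3).and (one_evA 20 A)).and
    (((one_ev25 (1 / 10) (by norm_num)).and hR).and
      ((eventually_ge_atTop x₀).and ((eventually_ge_atTop (400 : ℝ)).and (eventually_ge_atTop c)))))
  obtain ⟨X₃, hX₃⟩ := eventually_atTop.1 eall
  refine ⟨X₁ + X₃ + 3, fun X hX ψ hψ1 hψ2 => ?_⟩
  obtain ⟨⟨g1, g1'⟩, ⟨g2, g3⟩, g4, g5, g6⟩ := hX₃ X (by omega)
  obtain ⟨gR0, gR1⟩ := g3 ψ hψ1 hψ2
  set L := Real.log X with hL
  have hL1 : 1 ≤ L := by linarith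
  have hL0 : 0 < L := by linarith
  have hX0 : (0 : ℝ) < X := by exact_mod_cast (by omega : 0 < X)
  have hXL : Real.exp L = X := Real.exp_log hX0
  have hlL : 0 ≤ Real.log L := Real.log_nonneg hL1
  have hψ0 : 0 < ψ := by linarith
  set h : ℝ := L ^ (1 / 20 : ℝ) with hh
  have p0 : 0 < h := Real.rpow_pos_of_pos hL0 _
  -- the scale
  obtain ⟨y, hy⟩ : ∃ y : ℝ, y = L / ψ := ⟨_, rfl⟩
  have hyL : y ≤ L := by
    rw [hy]
    exact div_le_self hL0.le hψ1
  have hys : Real.sqrt L ≤ y := by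
    rw [hy, le_div_iff₀ hψ0]
    calc Real.sqrt L * ψ ≤ Real.sqrt L * Real.sqrt L :=
          mul_le_mul_of_nonneg_left hψ2 (Real.sqrt_nonneg _)
      _ = L := Real.mul_self_sqrt hL0.le
  have hs20 : 20 ≤ Real.sqrt L := Real.le_sqrt_of_sq_le (by linarith)
  have hLψ : ψ * y = L := by
    rw [hy]
    field_simp
  have p2 : L ^ (2 / 5 : ℝ) ≤ 1 / 10 * y := g2.trans (by linarith)
  have p3 : Real.exp (3 * Real.log L) = L ^ 3 := by
    have : (3 : ℝ) * Real.log L = Real.log (L ^ 3) := by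
      rw [Real.log_pow]
      norm_num
    rw [this, Real.exp_log (by positivity)]
  have hlogs : 3 * Real.log L ≤ 1 / 10 * L := by linarith
  -- the level
  obtain ⟨w, hw⟩ : ∃ w : ℕ, w = ⌊y / 10⌋₊ := ⟨_, rfl⟩
  have hw1 : (w : ℝ) ≤ y / 10 := by
    rw [hw]
    exact Nat.floor_le (by linarith)
  have hw2 : y / 20 ≤ w := by
    have h1 : y / 10 - 1 < w := by
      rw [hw]
      exact Nat.sub_one_lt_floor _
    linarith
  obtain ⟨a, ha, hcard⟩ := hrank L g4 ψ hψ1 hψ2 w
    (by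
      have h1 := mul_le_mul_of_nonneg_left hw2 (show 0 ≤ 20 * ψ by positivity)
      have h2 : 20 * ψ * (y / 20) = L := by
        rw [← hLψ]
        ring
      linarith)
    (by linarith)
  obtain ⟨W, hW⟩ : ∃ W : ℕ, W = primorial w := ⟨_, rfl⟩
  rw [← hW] at ha hcard
  have hW0 : 0 < W := by rw [hW]; exact primorial_pos w
  have hWpos : (0 : ℝ) < W := by exact_mod_cast hW0
  have hWy : (W : ℝ) ≤ Real.exp (7 / 50 * y) := by
    rw [hW]
    refine (primorial_exp w).trans (Real.exp_le_exp.2 ?_)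
    linarith
  have hWX : (W : ℝ) ≤ Real.exp (3 / 20 * L) := hWy.trans (Real.exp_le_exp.2 (by linarith))
  have hWp : ∀ p : ℕ, p.Prime → p ∣ W → (p : ℝ) ≤ w := by
    intro p hp hd
    rw [hW] at hd
    exact_mod_cast (Nat.Prime.dvd_primorial_iff hp).1 hd
  -- the length
  obtain ⟨s, hs⟩ : ∃ s : ℝ, s = c * L * Real.log L * R L ψ := ⟨_, rfl⟩
  rw [← hs] at hcard ⊢
  have hs0 : 0 ≤ s := by rw [hs]; positivity
  have hsL : s ≤ L ^ 3 := by
    have h1 : Real.log L * R L ψ ≤ L := by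
      have h2 : Real.log L * R L ψ ≤ Real.log L * Real.log L :=
        mul_le_mul_of_nonneg_left gR1 hlL
      have h3 : Real.log L ≤ L ^ (2 / 5 : ℝ) := by linarith
      have h4 : L ^ (2 / 5 : ℝ) ≤ Real.sqrt L := g2.trans (by linarith)
      have h5 : Real.log L ≤ Real.sqrt L := h3.trans h4
      calc Real.log L * R L ψ ≤ Real.log L * Real.log L := h2
        _ ≤ Real.sqrt L * Real.sqrt L := mul_le_mul h5 h5 hlL (Real.sqrt_nonneg _)
        _ = L := Real.mul_self_sqrt hL0.le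
    have h2 : s = (c * L) * (Real.log L * R L ψ) := by
      rw [hs]
      ring
    rw [h2]
    calc (c * L) * (Real.log L * R L ψ) ≤ (L * L) * L :=
          mul_le_mul (mul_le_mul_of_nonneg_right g6 hL0.le) h1 (mul_nonneg hlL gR0) (by positivity)
      _ = L ^ 3 := by ring
  obtain ⟨Λ, hΛ⟩ : ∃ Λ : ℕ, Λ = ⌊s⌋₊ := ⟨_, rfl⟩
  rw [← hΛ] at hcard
  have hΛs : (Λ : ℝ) ≤ s := by
    rw [hΛ]
    exact Nat.floor_le hs0
  obtain ⟨J, hJ⟩ : ∃ J : Finset ℕ, J = (Icc 1 Λ).filter (fun h => Nat.Coprime (a + h) W) :=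
    ⟨_, rfl⟩
  have hJs : J ⊆ Icc 1 Λ := by
    rw [hJ]
    exact filter_subset _ _
  have hJc : (J.card : ℝ) ≤ c₀ * L := by
    rw [hJ]
    exact hcard
  have hfin := hcore X (by omega) W a Λ J hW0
    (fun p hp hd => (hWp p hp hd).trans (by linarith)) ha.le hJs hJc (hΛs.trans hsL) hWX
  rw [← hL, ← hh] at hfin
  obtain ⟨M, hM⟩ : ∃ M : ℕ, M = ⌈Real.exp h⌉₊ := ⟨_, rfl⟩
  rw [← hM] at hfin
  have hM2 : (M : ℝ) ≤ 2 * Real.exp h := by
    have h1 : (M : ℝ) < Real.exp h + 1 := by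
      rw [hM]
      exact Nat.ceil_lt_add_one (Real.exp_pos _).le
    have h2 : 1 ≤ Real.exp h := Real.one_le_exp p0.le
    linarith
  obtain ⟨Q, hQ⟩ : ∃ Q : ℝ, Q = (X : ℝ) ^ (1 / 10 : ℝ) := ⟨_, rfl⟩
  rw [← hQ] at hfin
  have hQe : Q = Real.exp (1 / 10 * L) := by
    rw [hQ, Real.rpow_def_of_pos hX0]
    congr 1
    ring
  obtain ⟨E, hE⟩ : ∃ E : Finset ℕ, E = (range (X / W + 1)).filter fun m => ∀ j < M,
        ∃ k ∈ wdw W a J (Λ * j), ∀ p : ℕ, p.Prime → p ∣ W * m + k → Q < p := ⟨_, rfl⟩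
  have hfin' : (E.card : ℝ) ≤ 1 / 10 * L ^ (-(⌈A⌉₊ : ℝ)) * ((X / W + 1 : ℕ) : ℝ) := by
    rw [hE]
    convert hfin
  -- the exceptional integers
  set S : Finset ℕ := (range X).filter fun n => ¬ Void n (Real.exp (L / ψ)) s with hS
  have hset : {n : ℕ | n < X ∧ ¬ Void n (Real.exp (L / ψ)) s} = (S : Set ℕ) := by
    ext n
    simp [hS]
  rw [hset, Set.ncard_coe_finset]
  have hcnt := count_div (B := ⌈Q⌉₊ + W) hW0 S E (by
      intro n hn
      rw [hS, mem_filter, mem_range] at hn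
      by_contra hcon
      rw [not_or, not_lt] at hcon
      obtain ⟨hn1, hn2⟩ := hcon
      apply hn.2
      obtain ⟨m, hm⟩ : ∃ m : ℕ, m = n / W := ⟨_, rfl⟩
      rw [← hm] at hn2
      have hmn : W * m ≤ n := by
        rw [hm]
        exact Nat.mul_div_le n W
      have hmn2 : n < W * m + W := by
        rw [hm, ← Nat.mul_succ]
        exact Nat.lt_mul_div_succ n hW0
      have hmN : m < X / W + 1 := by
        rw [hm]
        have := Nat.div_le_div_right (c := W) hn.1.le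
        omega
      rw [hE, mem_filter, mem_range, not_and] at hn2
      have hn3 := hn2 hmN
      push Not at hn3
      obtain ⟨j, hj, hn4⟩ := hn3
      have hQn : Q < W * m + 1 := by
        have h1 : Q ≤ (⌈Q⌉₊ : ℝ) := Nat.le_ceil Q
        have h2 : ⌈Q⌉₊ ≤ W * m := by omega
        have h3 : ((⌈Q⌉₊ : ℕ) : ℝ) ≤ W * m := by exact_mod_cast h2
        linarith
      refine ⟨W * (m + 1 + Λ * j) + a, ?_, ?_, ?_⟩
      · have h1 : W * m + W ≤ W * (m + 1 + Λ * j) := by
          rw [← Nat.mul_succ]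
          exact Nat.mul_le_mul_left W (by omega)
        omega
      · -- the end of the run
        have h3 : (j : ℝ) + 1 ≤ M := by exact_mod_cast hj
        have hW1 : (1 : ℝ) ≤ W := by exact_mod_cast hW0
        have hL3 : (1 : ℝ) ≤ L ^ 3 := one_le_pow₀ hL1
        have hjM : (0 : ℝ) ≤ j := Nat.cast_nonneg _
        have haW : (a : ℝ) ≤ W := by exact_mod_cast ha.le
        have hmn' : (W : ℝ) * m ≤ n := by exact_mod_cast hmn
        have h4 : (W : ℝ) * (1 + Λ * j) + W + s ≤ 2 * W * (L ^ 3 * M) := by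
          have a1 : (Λ : ℝ) * j + L ^ 3 ≤ L ^ 3 * M := by
            calc (Λ : ℝ) * j + L ^ 3 ≤ L ^ 3 * j + L ^ 3 := by
                  have := mul_le_mul_of_nonneg_right (hΛs.trans hsL) hjM
                  linarith
              _ = L ^ 3 * (j + 1) := by ring
              _ ≤ L ^ 3 * M := mul_le_mul_of_nonneg_left h3 (by positivity)
          have a2 : s ≤ W * L ^ 3 := hsL.trans (le_mul_of_one_le_left (by positivity) hW1)
          have a3 : (W : ℝ) * (Λ * j + L ^ 3) ≤ W * (L ^ 3 * M) :=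
            mul_le_mul_of_nonneg_left a1 (by positivity)
          have a4 : (2 : ℝ) ≤ L ^ 3 * M := by
            have b1 : (1 : ℝ) ≤ M := by linarith
            have b2 : (400 : ℝ) ^ 3 ≤ L ^ 3 := pow_le_pow_left₀ (by norm_num) g5 3
            nlinarith
          have a5 : (W : ℝ) * 2 ≤ W * (L ^ 3 * M) := mul_le_mul_of_nonneg_left a4 (by positivity)
          linarith
        have h5 : 2 * (W : ℝ) * (L ^ 3 * M) ≤ Real.exp (L / ψ) := by
          have b1 : (L ^ 3 : ℝ) * M ≤ L ^ 3 * (2 * Real.exp h) :=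
            mul_le_mul_of_nonneg_left hM2 (by positivity)
          have b2 : 2 * (W : ℝ) * (L ^ 3 * M) ≤
              2 * Real.exp (7 / 50 * y) * (L ^ 3 * (2 * Real.exp h)) := by
            have := mul_le_mul (mul_le_mul_of_nonneg_left hWy (show (0 : ℝ) ≤ 2 by norm_num)) b1
              (by positivity) (by positivity)
            exact this
          have b3 : (4 : ℝ) ≤ Real.exp 2 := by
            have := Real.add_one_le_exp (1 : ℝ)
            have h4 : Real.exp 2 = Real.exp 1 * Real.exp 1 := by rw [← Real.exp_add]; norm_num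
            rw [h4]
            nlinarith
          rw [← hy]
          calc 2 * (W : ℝ) * (L ^ 3 * M) ≤
                2 * Real.exp (7 / 50 * y) * (L ^ 3 * (2 * Real.exp h)) := b2
            _ = 4 * (Real.exp (7 / 50 * y) * Real.exp (3 * Real.log L) * Real.exp h) := by
                rw [p3]
                ring
            _ ≤ Real.exp 2 * (Real.exp (7 / 50 * y) * Real.exp (3 * Real.log L) * Real.exp h) :=
                mul_le_mul_of_nonneg_right b3 (by positivity)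
            _ = Real.exp (2 + (7 / 50 * y + 3 * Real.log L + h)) := by
                rw [← Real.exp_add, ← Real.exp_add, ← Real.exp_add]
            _ ≤ Real.exp y := Real.exp_le_exp.2 (by linarith)
        push_cast
        have e1 : (W : ℝ) * (m + 1 + Λ * j) = W * m + W * (1 + Λ * j) := by ring
        rw [e1]
        linarith
      · -- no prime
        intro k hk1 hk2
        refine wdw_run (W := W) (a := a) (Λ := Λ) (j := Λ * j) (m := m) (Q := Q) (J := J) ?_ ?_ hQn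
          hn4 k hk1 ?_
        · intro x hx hxJ hcop
          apply hxJ
          rw [hJ, mem_filter]
          exact ⟨hx, hcop⟩
        · intro p hp hd
          have h1 := hWp p hp hd
          have h2 : Real.exp (Real.log L) ≤ Real.exp (1 / 10 * L) := Real.exp_le_exp.2 (by linarith)
          rw [Real.exp_log hL0] at h2
          rw [hQe]
          linarith
        · have h1 : ((k : ℕ) : ℝ) - (W * (m + 1 + Λ * j) + a : ℕ) ≤ s := by linarith
          have h2 : k - (W * (m + 1 + Λ * j) + a) ≤ ⌊s⌋₊ := by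
            refine Nat.le_floor ?_
            rw [Nat.cast_sub hk1.le]
            exact h1
          rw [← hΛ] at h2
          omega)
  -- the final count
  have hWN : (W : ℝ) * ((X / W + 1 : ℕ) : ℝ) ≤ 2 * X := by
    have h1 : W * (X / W + 1) ≤ X + W := by
      rw [Nat.mul_add, mul_one]
      exact Nat.add_le_add_right (Nat.mul_div_le X W) _
    have h2 : (W : ℝ) * ((X / W + 1 : ℕ) : ℝ) ≤ X + W := by exact_mod_cast h1
    have h3 : (W : ℝ) ≤ X := by
      refine hWX.trans ?_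
      rw [← hXL]
      exact Real.exp_le_exp.2 (by linarith)
    linarith
  have hAL : L ^ (-(⌈A⌉₊ : ℝ)) ≤ L ^ (-A) :=
    Real.rpow_le_rpow_of_exponent_le hL1 (neg_le_neg (Nat.le_ceil A))
  have hAL0 : 0 < L ^ (-A) := Real.rpow_pos_of_pos hL0 _
  have h1 : (S.card : ℝ) ≤ (⌈Q⌉₊ : ℝ) + W + W * E.card := by exact_mod_cast hcnt
  have h2 : (⌈Q⌉₊ : ℝ) ≤ Q + 1 := (Nat.ceil_lt_add_one (by rw [hQe]; positivity)).le
  have h3 : (W : ℝ) * E.card ≤ 1 / 5 * L ^ (-A) * X := by
    calc (W : ℝ) * E.card ≤ W * (1 / 10 * L ^ (-(⌈A⌉₊ : ℝ)) * ((X / W + 1 : ℕ) : ℝ)) :=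
          mul_le_mul_of_nonneg_left hfin' hWpos.le
      _ = 1 / 10 * L ^ (-(⌈A⌉₊ : ℝ)) * (W * ((X / W + 1 : ℕ) : ℝ)) := by ring
      _ ≤ 1 / 10 * L ^ (-A) * (2 * X) := by
          refine mul_le_mul (mul_le_mul_of_nonneg_left hAL (by norm_num)) hWN (by positivity)
            (by positivity)
      _ = _ := by ring
  have h4 : Q + 1 + W ≤ 1 / 2 * L ^ (-A) * X := by
    have a1 : Q ≤ Real.exp (3 / 20 * L) := by
      rw [hQe]
      exact Real.exp_le_exp.2 (by linarith)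
    have a2 : 1 ≤ Real.exp (3 / 20 * L) := Real.one_le_exp (by positivity)
    have a3 : (6 : ℝ) ≤ Real.exp 5 := by
      have := Real.add_one_le_exp (5 : ℝ)
      linarith
    have a4 : L ^ (-A) = Real.exp (-(A * Real.log L)) := by
      rw [Real.rpow_def_of_pos hL0]
      congr 1
      ring
    have a5 : 6 * Real.exp (3 / 20 * L) ≤ L ^ (-A) * X := by
      rw [a4, ← hXL, ← Real.exp_add]
      calc 6 * Real.exp (3 / 20 * L) ≤ Real.exp 5 * Real.exp (3 / 20 * L) :=
            mul_le_mul_of_nonneg_right a3 (Real.exp_pos _).le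
        _ = Real.exp (5 + 3 / 20 * L) := by rw [← Real.exp_add]
        _ ≤ _ := Real.exp_le_exp.2 (by linarith)
    linarith
  have h5 : 0 < L ^ (-A) * X := by positivity
  linarith

end Pool.Agent.H.MP_711652_nt.G3
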