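import Pool.Agent.H.MP_711652_nt.G2.NumBig

/-!
# GAP3 (ii), T2c: the exceptional big primes, the windows
-/

set_option autoImplicit false

namespace Pool.Agent.H.MP_711652_nt.G3

open Finset Pool.Agent.H.MP_711652_nt.LG Pool.Agent.H.MP_711652_nt.G2

/-- The number of the primes of `(z, B]` which divide a positive integer `d ≤ X`. -/
theorem pbig_dvd_card {z B d X : ℕ} (hz : 2 ≤ z) (hd : 0 < d) (hdX : d ≤ X) :
    ((((Pbig z B).filter (fun p => p ∣ d)).card : ℕ) : ℝ) ≤ Real.log X / Real.log z := by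
  have hz1 : (1 : ℝ) < z := by exact_mod_cast hz
  have hlz : 0 < Real.log z := Real.log_pos hz1
  rw [le_div_iff₀ hlz]
  set F := (Pbig z B).filter (fun p => p ∣ d) with hF
  have h1 : ∏ p ∈ F, p ≤ X := by
    refine le_trans (Nat.le_of_dvd hd ?_) hdX
    refine Finset.prod_primes_dvd d (fun p hp => ?_) fun p hp => (mem_filter.1 hp).2
    exact (Pbig_prime p (mem_filter.1 hp).1).prime
  have h2 : z ^ F.card ≤ ∏ p ∈ F, p := by
    refine prod_const z (s := F) ▸ prod_le_prod (fun _ _ => Nat.zero_le _) fun p hp => ?_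
    exact (Pbig_lt p (mem_filter.1 hp).1).le
  have h3 : ((z : ℝ)) ^ F.card ≤ X := by exact_mod_cast h2.trans h1
  rw [← Real.log_pow]
  exact Real.log_le_log (by positivity) h3

/-- The primes of `(z, B]` which divide a difference of two elements of `S`. -/
def Exc (z B : ℕ) (S : Finset ℕ) : Finset ℕ :=
  (Pbig z B).filter (fun p => ∃ k ∈ S, ∃ k' ∈ S, k < k' ∧ p ∣ k' - k)

theorem exc_sub (z B : ℕ) (S : Finset ℕ) : Exc z B S ⊆ Pbig z B := filter_subset _ _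

/-- No thinned prime divides a difference. -/
theorem exc_mod {z B p : ℕ} {S : Finset ℕ} (hp : p ∈ Pbig z B \ Exc z B S) {k k' : ℕ}
    (hk : k ∈ S) (hk' : k' ∈ S) (h : k ≡ k' [MOD p]) : k = k' := by
  rw [mem_sdiff] at hp
  by_contra hne
  apply hp.2
  rw [Exc, mem_filter]
  refine ⟨hp.1, ?_⟩
  rcases lt_or_gt_of_ne hne with h1 | h1
  · exact ⟨k, hk, k', hk', h1, (Nat.modEq_iff_dvd' h1.le).1 h⟩
  · exact ⟨k', hk', k, hk, h1, (Nat.modEq_iff_dvd' h1.le).1 h.symm⟩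

theorem exc_card {z B X : ℕ} {S : Finset ℕ} (hz : 2 ≤ z) (hX : ∀ k ∈ S, k ≤ X) :
    ((Exc z B S).card : ℝ) ≤ (S.card : ℝ) ^ 2 * (Real.log X / Real.log z) := by
  classical
  have h1 : Exc z B S ⊆ ((S ×ˢ S).filter (fun q => q.1 < q.2)).biUnion
      (fun q => (Pbig z B).filter (fun p => p ∣ q.2 - q.1)) := by
    intro p hp
    rw [Exc, mem_filter] at hp
    obtain ⟨hp, k, hk, k', hk', hlt, hd⟩ := hp
    rw [mem_biUnion]
    refine ⟨(k, k'), ?_, ?_⟩
    · rw [mem_filter, mem_product]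
      exact ⟨⟨hk, hk'⟩, hlt⟩
    · rw [mem_filter]
      exact ⟨hp, hd⟩
  have h2 : ((Exc z B S).card : ℝ) ≤ ∑ q ∈ (S ×ˢ S).filter (fun q => q.1 < q.2),
      (((Pbig z B).filter (fun p => p ∣ q.2 - q.1)).card : ℝ) := by
    have := (card_le_card h1).trans card_biUnion_le
    exact_mod_cast this
  have hz1 : (1 : ℝ) < z := by exact_mod_cast hz
  have hlz : 0 < Real.log z := Real.log_pos hz1
  have h3 : ∀ q ∈ (S ×ˢ S).filter (fun q => q.1 < q.2),
      (((Pbig z B).filter (fun p => p ∣ q.2 - q.1)).card : ℝ) ≤ Real.log X / Real.log z := by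
    intro q hq
    rw [mem_filter, mem_product] at hq
    exact pbig_dvd_card hz (by omega) (by have := hX q.2 hq.1.2; omega)
  refine h2.trans ((sum_le_sum h3).trans ?_)
  rw [sum_const, nsmul_eq_mul]
  have h4 : (((S ×ˢ S).filter (fun q => q.1 < q.2)).card : ℝ) ≤ (S.card : ℝ) ^ 2 := by
    have := card_filter_le (S ×ˢ S) (fun q => q.1 < q.2)
    rw [card_product] at this
    rw [sq]
    exact_mod_cast this
  exact mul_le_mul_of_nonneg_right h4 (div_nonneg (Real.log_natCast_nonneg X) hlz.le)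

/-- The sum of `1 / (p - 1)` over the exceptional primes. -/
theorem exc_sum {z B X : ℕ} {S : Finset ℕ} (hz : 2 ≤ z) (hX : ∀ k ∈ S, k ≤ X) :
    ∑ p ∈ Exc z B S, 1 / ((p : ℝ) - 1) ≤
      (S.card : ℝ) ^ 2 * (Real.log X / Real.log z) / z := by
  have hz0 : (0 : ℝ) < z := by
    have : 0 < z := by omega
    exact_mod_cast this
  have h1 : ∀ p ∈ Exc z B S, 1 / ((p : ℝ) - 1) ≤ 1 / z := by
    intro p hp
    have h2 := Pbig_lt p (exc_sub _ _ _ hp)
    have h3 : (z : ℝ) + 1 ≤ p := by exact_mod_cast h2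
    exact one_div_le_one_div_of_le hz0 (by linarith)
  refine (sum_le_sum h1).trans ?_
  rw [sum_const, nsmul_eq_mul, mul_one_div]
  exact div_le_div_of_nonneg_right (exc_card hz hX) hz0.le

/-- The windows: the integers `W (1 + j) + a + h`, `h ∈ J`. -/
def wdw (W a : ℕ) (J : Finset ℕ) (j : ℕ) : Finset ℕ := J.image (fun h => W * (1 + j) + a + h)

theorem mem_wdw {W a j k : ℕ} {J : Finset ℕ} :
    k ∈ wdw W a J j ↔ ∃ h ∈ J, W * (1 + j) + a + h = k := by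
  rw [wdw, mem_image]

theorem wdw_card (W a : ℕ) (J : Finset ℕ) (j : ℕ) : (wdw W a J j).card ≤ J.card := card_image_le

theorem wdw_disj {W a Λ : ℕ} {J : Finset ℕ} (hJ : J ⊆ Icc 1 Λ) (hW : Λ ≤ W) {i j : ℕ}
    (hij : i ≠ j) : Disjoint (wdw W a J i) (wdw W a J j) := by
  rw [Finset.disjoint_left]
  intro k hk hk'
  rw [mem_wdw] at hk hk'
  obtain ⟨h, hh, rfl⟩ := hk
  obtain ⟨h', hh', he⟩ := hk'
  have h1 := mem_Icc.1 (hJ hh)
  have h2 := mem_Icc.1 (hJ hh')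
  rcases lt_or_gt_of_ne hij with h3 | h3
  · have h4 : W * (1 + i) + W ≤ W * (1 + j) := by
      rw [← Nat.mul_succ]
      exact Nat.mul_le_mul_left W (by omega)
    omega
  · have h4 : W * (1 + j) + W ≤ W * (1 + i) := by
      rw [← Nat.mul_succ]
      exact Nat.mul_le_mul_left W (by omega)
    omega

theorem wdw_pos {W a j k : ℕ} {J : Finset ℕ} (hW : 0 < W) (hk : k ∈ wdw W a J j) : 0 < k := by
  rw [mem_wdw] at hk
  obtain ⟨h, -, rfl⟩ := hk
  have : 0 < W * (1 + j) := Nat.mul_pos hW (by omega)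
  omega

theorem wdw_near {W a Λ j k k' : ℕ} {J : Finset ℕ} (hJ : J ⊆ Icc 1 Λ) (hk : k ∈ wdw W a J j)
    (hk' : k' ∈ wdw W a J j) : k ≤ k' + Λ := by
  rw [mem_wdw] at hk hk'
  obtain ⟨h, hh, rfl⟩ := hk
  obtain ⟨h', hh', rfl⟩ := hk'
  have h1 := mem_Icc.1 (hJ hh)
  omega

theorem wdw_le {W a Λ M j k : ℕ} {J : Finset ℕ} (hJ : J ⊆ Icc 1 Λ) (ha : a ≤ W) (hj : j < M)
    (hk : k ∈ wdw W a J j) : k ≤ W * (M + 1) + Λ := by
  rw [mem_wdw] at hk
  obtain ⟨h, hh, rfl⟩ := hk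
  have h1 := mem_Icc.1 (hJ hh)
  have h2 : W * (1 + j) + W ≤ W * (M + 1) := by
    rw [← Nat.mul_succ]
    exact Nat.mul_le_mul_left W (by omega)
  omega

/-- A good window is a run without primes: if every element of the window `j` plus `W m` has a prime
factor `≤ Q`, and the elements outside `J` are not coprime to `W`, all whose prime factors are `≤ Q`, then
the integers of `(W (m + 1 + j) + a, W (m + 1 + j) + a + Λ]` are not primes. -/
theorem wdw_run {W a Λ j m : ℕ} {Q : ℝ} {J : Finset ℕ}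
    (hJ : ∀ h ∈ Icc 1 Λ, h ∉ J → ¬ Nat.Coprime (a + h) W) (hWQ : ∀ p : ℕ, p.Prime → p ∣ W → (p : ℝ) ≤ Q)
    (hQ : Q < W * m + 1)
    (hv : ∀ k ∈ wdw W a J j, ∃ p : ℕ, p.Prime ∧ p ∣ W * m + k ∧ (p : ℝ) ≤ Q) (k : ℕ)
    (hk : W * (m + 1 + j) + a < k) (hk2 : k ≤ W * (m + 1 + j) + a + Λ) : ¬ k.Prime := by
  intro hkp
  obtain ⟨h, rfl⟩ : ∃ h, k = W * (m + 1 + j) + a + h := ⟨k - (W * (m + 1 + j) + a), by omega⟩
  have hh : h ∈ Icc 1 Λ := mem_Icc.2 ⟨by omega, by omega⟩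
  have e1 : W * (m + 1 + j) = W * m + W * (1 + j) := by ring
  obtain ⟨p, hp, hpd, hpQ⟩ : ∃ p : ℕ, p.Prime ∧ p ∣ W * (m + 1 + j) + a + h ∧ (p : ℝ) ≤ Q := by
    by_cases hc : h ∈ J
    · obtain ⟨p, hp, hpd, hpQ⟩ := hv _ (mem_wdw.2 ⟨h, hc, rfl⟩)
      refine ⟨p, hp, ?_, hpQ⟩
      have e2 : W * (m + 1 + j) + a + h = W * m + (W * (1 + j) + a + h) := by
        rw [e1]
        ring
      rw [e2]
      exact hpd
    · obtain ⟨p, hp, hp1, hp2⟩ := Nat.Prime.not_coprime_iff_dvd.1 (hJ h hh hc)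
      refine ⟨p, hp, ?_, hWQ p hp hp2⟩
      rw [add_assoc]
      exact dvd_add (hp2.mul_right _) hp1
  have h8 : p = W * (m + 1 + j) + a + h := (Nat.prime_dvd_prime_iff_eq hp hkp).1 hpd
  have h9 : (W * m + 1 : ℕ) ≤ p := by
    rw [h8, e1]
    have := (mem_Icc.1 hh).1
    omega
  have h10 : ((W * m + 1 : ℕ) : ℝ) ≤ p := by exact_mod_cast h9
  push_cast at h10
  linarith

end Pool.Agent.H.MP_711652_nt.G3
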